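import Pool.Agent.H158.GK.Main

set_option autoImplicit false

/-!
# The conjecture of Kotnik and van de Lune, or relations of enormous precision between the zeros

`M(x) = ∑_{n ≤ x} μ(n)` and `G_κ(x) = √x (log log log x)^κ`; `G_{1/2} = G` is the function of Q1. No hypothesis is assumed.

Call an ordinate `0 < γ ≤ T` of a zero of `ζ` on the critical line *related* (at height `T`, with exponent `θ`) if it occurs in a
signed sum `± γ_1 ± ... ± γ_n` of `n ≥ 2` distinct ordinates `γ_j ≤ T` of zeros on the critical line which is at distance at most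
`exp(- exp((log T)^θ))` from `0` or from the ordinate `γ_0 > 0` of a zero on the critical line. (For `θ = 1` this is `exp(-T)`.)

There is a constant `c > 0` such that for every `0 < κ < 5/4` at least one of the following holds.

* `limsup M/G_κ = +∞` and `liminf M/G_κ = -∞`; for `κ = 1/2` this is the statement of Q1, with infinite limits.
* For every `1 ≤ θ < 5/(4κ)` and ALL large `T` the sum of `1 / |ρ ζ'(ρ)|` over the simple zeros `ρ = 1/2 + iγ` with a related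
  ordinate `γ ≤ T` is at least `c (log T)^{5/4}`. For `κ = 1/2` all `θ < 5/2` are admitted.

There are about `exp(c T log T)` signed sums with ordinates up to `T`, so that relations of precision `exp(-T^A)` with `A > 1`
(and much more so with `θ > 1`) are not expected.
-/

namespace Pool.Agent.Results.MP_a550d9_nt.OmegaOrCloseRelations

open Filter Topology Complex

/-- `M(x) = ∑_{n ≤ x} μ(n)`. -/
noncomputable def M (x : ℝ) : ℝ := ∑ n ∈ Finset.Icc 1 ⌊x⌋₊, ((ArithmeticFunction.moebius n : ℤ) : ℝ)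

/-- `G_κ(x) = √x (log log log x)^κ`. -/
noncomputable def G (κ x : ℝ) : ℝ := Real.sqrt x * Real.log (Real.log (Real.log x)) ^ κ

/-- The number `γ` belongs to a finite set `S` of at least two ordinates `0 < t ≤ T` of zeros on the critical line, and some signed sum
`∑_{t ∈ S} σ_t t`, `σ_t = ± 1`, is within `exp(-exp((log T)^θ))` of `γ₀`, where `γ₀ = 0` or `γ₀ > 0` is the ordinate of a zero on the
critical line. -/
def Related (θ T γ : ℝ) : Prop :=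
  ∃ (S : Finset ℝ) (σ : ℝ → ℤ) (γ₀ : ℝ), γ ∈ S ∧ 2 ≤ S.card ∧
    (∀ t ∈ S, 0 < t ∧ t ≤ T ∧ riemannZeta (1 / 2 + t * I) = 0 ∧ (σ t = 1 ∨ σ t = -1)) ∧
    (γ₀ = 0 ∨ 0 < γ₀ ∧ riemannZeta (1 / 2 + γ₀ * I) = 0) ∧
    |∑ t ∈ S, (σ t : ℝ) * t - γ₀| ≤ Real.exp (-Real.exp (Real.log T ^ θ))

theorem G_pos (κ : ℝ) : ∀ᶠ x : ℝ in atTop, 0 < G κ x := by
  have h1 : Tendsto (fun x : ℝ => Real.log (Real.log (Real.log x))) atTop atTop :=
    Real.tendsto_log_atTop.comp (Real.tendsto_log_atTop.comp Real.tendsto_log_atTop)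
  filter_upwards [h1.eventually_gt_atTop 0, eventually_gt_atTop 0] with x h2 h3
  exact mul_pos (Real.sqrt_pos.2 h3) (Real.rpow_pos_of_pos h2 _)

/-- **Theorem.** -/
theorem result : ∃ c : ℝ, 0 < c ∧ ∀ κ : ℝ, 0 < κ → κ < 5 / 4 →
    (limsup (fun x : ℝ => ((M x / G κ x : ℝ) : EReal)) atTop = ⊤ ∧
      liminf (fun x : ℝ => ((M x / G κ x : ℝ) : EReal)) atTop = ⊥) ∨
    ∀ θ : ℝ, 1 ≤ θ → θ < 5 / (4 * κ) → ∀ᶠ T : ℝ in atTop, ∃ R : Finset ℝ,
      (∀ γ ∈ R, 0 < γ ∧ γ ≤ T ∧ riemannZeta (1 / 2 + γ * I) = 0 ∧ deriv riemannZeta (1 / 2 + γ * I) ≠ 0 ∧ Related θ T γ) ∧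
      c * Real.log T ^ (5 / 4 : ℝ) ≤ ∑ γ ∈ R, 1 / ‖(1 / 2 + γ * I) * deriv riemannZeta (1 / 2 + γ * I)‖ := by
  obtain ⟨c, hc, hmain⟩ := Pool.Agent.H158.GK.mainK
  refine ⟨c, hc, fun κ hκ hκ1 => ?_⟩
  have key : ∀ s B : ℝ, (s = 1 ∨ s = -1) → 0 < B → Pool.Agent.H158.GK.OneSidedK s B κ →
      ∀ θ : ℝ, 1 ≤ θ → θ < 5 / (4 * κ) → ∀ᶠ T : ℝ in atTop, ∃ R : Finset ℝ,
      (∀ γ ∈ R, 0 < γ ∧ γ ≤ T ∧ riemannZeta (1 / 2 + γ * I) = 0 ∧ deriv riemannZeta (1 / 2 + γ * I) ≠ 0 ∧ Related θ T γ) ∧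
      c * Real.log T ^ (5 / 4 : ℝ) ≤ ∑ γ ∈ R, 1 / ‖(1 / 2 + γ * I) * deriv riemannZeta (1 / 2 + γ * I)‖ := by
    intro s B hs hB h θ hθ hθκ
    have h1 : θ * κ < 5 / 4 := by
      rw [lt_div_iff₀ (by positivity)] at hθκ
      linarith
    filter_upwards [hmain s B κ θ hs hB hκ.le hκ1.le hθ h1 h, eventually_gt_atTop (1 : ℝ)] with T hT hT1
    obtain ⟨R, hR, hsum⟩ := hT
    refine ⟨R, fun γ hγ => ?_, hsum⟩
    obtain ⟨h1, h2, h3, h4, S, σ, γ₀, hγS, hcard, hS, h0, hle⟩ := hR γ hγ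
    rw [Pool.Agent.H158.GK.pow_AA hT1] at hle
    exact ⟨h1, h2, h3, h4, S, σ, γ₀, hγS, hcard, hS, h0, hle⟩
  by_cases hb : ∀ θ : ℝ, 1 ≤ θ → θ < 5 / (4 * κ) → ∀ᶠ T : ℝ in atTop, ∃ R : Finset ℝ,
      (∀ γ ∈ R, 0 < γ ∧ γ ≤ T ∧ riemannZeta (1 / 2 + γ * I) = 0 ∧ deriv riemannZeta (1 / 2 + γ * I) ≠ 0 ∧ Related θ T γ) ∧
      c * Real.log T ^ (5 / 4 : ℝ) ≤ ∑ γ ∈ R, 1 / ‖(1 / 2 + γ * I) * deriv riemannZeta (1 / 2 + γ * I)‖
  · exact Or.inr hb
  left
  constructor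
  · by_contra hcon
    obtain ⟨w, hw1, hw2⟩ := EReal.lt_iff_exists_real_btwn.1 (lt_top_iff_ne_top.2 hcon)
    have h2 := eventually_lt_of_limsup_lt hw1 (by isBoundedDefault)
    refine hb (key 1 (max w 1) (Or.inl rfl) (by positivity) ?_)
    filter_upwards [h2, G_pos κ] with x h3 h4
    have h5 : M x / G κ x < w := EReal.coe_lt_coe_iff.1 h3
    rw [div_lt_iff₀ h4] at h5
    show 1 * M x ≤ max w 1 * G κ x
    rw [one_mul]
    exact h5.le.trans (mul_le_mul_of_nonneg_right (le_max_left _ _) h4.le)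
  · by_contra hcon
    obtain ⟨w, hw1, hw2⟩ := EReal.lt_iff_exists_real_btwn.1 (bot_lt_iff_ne_bot.2 hcon)
    have h2 := eventually_lt_of_lt_liminf hw2 (by isBoundedDefault)
    refine hb (key (-1) (max (-w) 1) (Or.inr rfl) (by positivity) ?_)
    filter_upwards [h2, G_pos κ] with x h3 h4
    have h5 : w < M x / G κ x := EReal.coe_lt_coe_iff.1 h3
    rw [lt_div_iff₀ h4] at h5
    show -1 * M x ≤ max (-w) 1 * G κ x
    have h6 : -w * G κ x ≤ max (-w) 1 * G κ x := mul_le_mul_of_nonneg_right (le_max_left _ _) h4.le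
    linarith

end Pool.Agent.Results.MP_a550d9_nt.OmegaOrCloseRelations
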